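import Mathlib
import Pool.Agent.R578.SemiFact

/-!
# MP_3b8abe_co: semigroups with infinite representation counts and full intersection sets

Full answer to Q1. A semigroup `S` (not assumed commutative) has both properties

1. for all large `h` some `x` has infinitely many ordered factorisations into `h` factors,
2. `H(A_q) = {1, 2, 3, …}` for every asymptotically strictly decreasing sequence `(A_q)` in `S`
   (that is, the set `H*(S)` of all the intersection sets is the singleton of `{1, 2, 3, …}`),

if and only if some element of `S` has infinitely many factorisations `x = a b` into TWO factors and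
for every `x` there is a finite set `C` of square roots of `x` (`c c = x` for `c ∈ C`) such that
all but finitely many factorisations `x = a b` have `a ∈ C` or `b ∈ C`.

Moreover, in such a semigroup the set `Q` of the elements with infinitely many two-factor
factorisations is a nonempty two-sided ideal of idempotents, and each `x ∈ Q` absorbs infinitely
many elements on one side.
-/

set_option autoImplicit false

open Pointwise

namespace Pool.Agent.Results.MP_3b8abe_co.TwoFactor

open Pool.Agent.R578.SemiFact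

section defs

variable {S : Type*} [Semigroup S]

/-- `f` is an ordered factorisation of `x` into `h` factors: `f 0 * f 1 * ⋯ * f (h - 1) = x`
(the product is formed in `WithOne S`, which is `S` with an identity adjoined, because `S` itself
need not have an identity). -/
def IsFactorisation (h : ℕ) (f : Fin h → S) (x : S) : Prop :=
  (List.ofFn fun i => (f i : WithOne S)).prod = (x : WithOne S)

/-- The set `A^h` of the products of `h` elements of `A`. -/
def power (A : Set S) (h : ℕ) : Set S :=
  {x | ∃ f : Fin h → S, (∀ i, f i ∈ A) ∧ IsFactorisation h f x}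

/-- `r_{A,h}(x) = ∞`: there are infinitely many ordered factorisations of `x` into `h` factors
from `A`. -/
def InfReps (A : Set S) (h : ℕ) (x : S) : Prop :=
  {f : Fin h → S | (∀ i, f i ∈ A) ∧ IsFactorisation h f x}.Infinite

/-- Asymptotically strictly decreasing sequences of sets. -/
def AsympStrictDecr (A : ℕ → Set S) : Prop :=
  (∀ q, A (q + 1) ⊆ A q) ∧ {q | A (q + 1) ≠ A q}.Infinite

/-- The intersection set `H(A_q)`. -/
def Hset (A : ℕ → Set S) : Set ℕ :=
  {h | 1 ≤ h ∧ power (⋂ q, A q) h = ⋂ q, power (A q) h}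

/-- The set of all two-factor factorisations of `x`. -/
def Pairs (x : S) : Set (S × S) := {p | p.1 * p.2 = x}

end defs

section

variable (S : Type*) [Semigroup S]

/-- Property 1: there is `h₀ ≥ 1` such that for every `h ≥ h₀` some `x` has `r_{S,h}(x) = ∞`. -/
def Property1 : Prop := ∃ h₀ : ℕ, 1 ≤ h₀ ∧ ∀ h, h₀ ≤ h → ∃ x : S, InfReps Set.univ h x

/-- The collection of the intersection sets of all asymptotically strictly decreasing sequences. -/
def HStar : Set (Set ℕ) := {H | ∃ A : ℕ → Set S, AsympStrictDecr A ∧ H = Hset A}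

/-- Property 2: the only intersection set is `{1, 2, 3, …}`. -/
def Property2 : Prop := HStar S = {{h : ℕ | 1 ≤ h}}

end

variable {S : Type*} [Semigroup S]

theorem prod_coe (n : ℕ) (f : Fin (n + 1) → S) :
    ∃ y : S, (List.ofFn fun i => (f i : WithOne S)).prod = (y : WithOne S) := by
  induction n with
  | zero => exact ⟨f 0, by simp⟩
  | succ n ih =>
    obtain ⟨y, hy⟩ := ih (fun i => f i.castSucc)
    refine ⟨y * f (Fin.last _), ?_⟩
    rw [List.ofFn_succ', List.concat_eq_append, List.prod_append, hy]
    simp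

theorem isFact_snoc (n : ℕ) (f : Fin (n + 1) → S) (s x : S) (hf : IsFactorisation (n + 1) f x) :
    IsFactorisation (n + 2) (Fin.snoc (α := fun _ => S) f s) (x * s) := by
  unfold IsFactorisation at *
  rw [List.ofFn_succ', List.concat_eq_append, List.prod_append]
  simp only [Fin.snoc_castSucc, Fin.snoc_last, List.prod_cons, List.prod_nil, mul_one]
  rw [hf, WithOne.coe_mul]

theorem isFact_init (n : ℕ) (f : Fin (n + 2) → S) (x : S) (hf : IsFactorisation (n + 2) f x) :
    ∃ y : S, IsFactorisation (n + 1) (fun i => f i.castSucc) y ∧ y * f (Fin.last _) = x := by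
  obtain ⟨y, hy⟩ := prod_coe n (fun i => f i.castSucc)
  refine ⟨y, hy, ?_⟩
  unfold IsFactorisation at hf
  rw [List.ofFn_succ', List.concat_eq_append, List.prod_append, hy] at hf
  have : ((y * f (Fin.last _) : S) : WithOne S) = (x : WithOne S) := by
    rw [← hf]
    simp
  exact WithOne.coe_injective this

theorem power_succ (A : Set S) (n : ℕ) : power A (n + 1) = PP A n := by
  induction n with
  | zero =>
    ext x
    constructor
    · rintro ⟨f, hf, hx⟩
      have : (f 0 : WithOne S) = (x : WithOne S) := by simpa [IsFactorisation] using hx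
      rw [← WithOne.coe_injective this]
      exact hf 0
    · intro hx
      exact ⟨fun _ => x, fun _ => hx, by simp [IsFactorisation]⟩
  | succ n ih =>
    ext x
    constructor
    · rintro ⟨f, hf, hx⟩
      obtain ⟨y, hy, hyx⟩ := isFact_init n f x hx
      rw [← hyx]
      refine Set.mul_mem_mul ?_ (hf _)
      rw [← ih]
      exact ⟨_, fun i => hf _, hy⟩
    · intro hx
      obtain ⟨y, hy, s, hs, rfl⟩ := Set.mem_mul.mp hx
      rw [← ih] at hy
      obtain ⟨f, hf, hfy⟩ := hy
      refine ⟨Fin.snoc (α := fun _ => S) f s, ?_, isFact_snoc n f s y hfy⟩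
      intro i
      refine Fin.lastCases ?_ (fun j => ?_) i
      · simpa using hs
      · simpa using hf j

theorem fin_of_pairs (h : ∀ x : S, (Pairs x).Finite) (n : ℕ) :
    ∀ x : S, {f : Fin (n + 1) → S | IsFactorisation (n + 1) f x}.Finite := by
  induction n with
  | zero =>
    intro x
    refine (Set.finite_singleton (fun _ => x : Fin 1 → S)).subset ?_
    intro f hf
    have : (f 0 : WithOne S) = (x : WithOne S) := by simpa [IsFactorisation] using hf
    have h0 := WithOne.coe_injective this
    rw [Set.mem_singleton_iff]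
    funext i
    rw [Subsingleton.elim i 0, h0]
  | succ n ih =>
    intro x
    refine ((h x).biUnion (t := fun p => (fun g : Fin (n + 1) → S =>
      (Fin.snoc (α := fun _ => S) g p.2 : Fin (n + 2) → S)) ''
      {g | IsFactorisation (n + 1) g p.1}) (fun p _ => (ih p.1).image _)).subset ?_
    intro f hf
    obtain ⟨y, hy, hyx⟩ := isFact_init n f x hf
    refine Set.mem_biUnion (x := (y, f (Fin.last _))) hyx ⟨_, hy, ?_⟩
    funext i
    refine Fin.lastCases ?_ (fun j => ?_) i
    · simp
    · simp

theorem inf_of_pairs (x : S) (h : (Pairs x).Infinite) (n : ℕ) :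
    ∃ y : S, {f : Fin (n + 2) → S | IsFactorisation (n + 2) f y}.Infinite := by
  induction n with
  | zero =>
    refine ⟨x, ?_⟩
    have h2 := h.image (f := fun p : S × S => (![p.1, p.2] : Fin 2 → S)) (by
      intro p _ q _ e
      have e0 := congrFun e 0
      have e1 := congrFun e 1
      exact Prod.ext e0 e1)
    refine h2.mono ?_
    rintro _ ⟨p, hp, rfl⟩
    have hp' : p.1 * p.2 = x := hp
    show IsFactorisation 2 _ x
    unfold IsFactorisation
    rw [← hp']
    simp
  | succ n ih =>
    obtain ⟨y, hy⟩ := ih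
    refine ⟨y * y, ?_⟩
    have h2 := hy.image (f := fun g : Fin (n + 2) → S =>
      (Fin.snoc (α := fun _ => S) g y : Fin (n + 3) → S)) (by
      intro p _ q _ e
      have := congrArg (Fin.init (α := fun _ => S)) e
      simpa using this)
    refine h2.mono ?_
    rintro _ ⟨g, hg, rfl⟩
    exact isFact_snoc (n + 1) g y y hg

theorem property1_iff : Property1 S ↔ ∃ x : S, (Pairs x).Infinite := by
  constructor
  · rintro ⟨h₀, h1, hh⟩
    by_contra hcon
    push Not at hcon
    obtain ⟨x, hx⟩ := hh h₀ le_rfl
    obtain ⟨n, rfl⟩ : ∃ n, h₀ = n + 1 := ⟨h₀ - 1, by omega⟩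
    apply hx
    refine (fin_of_pairs hcon n x).subset ?_
    intro f hf
    exact hf.2
  · rintro ⟨x, hx⟩
    refine ⟨2, by norm_num, ?_⟩
    intro h hh
    obtain ⟨n, rfl⟩ : ∃ n, h = n + 2 := ⟨h - 2, by omega⟩
    obtain ⟨y, hy⟩ := inf_of_pairs x hx n
    refine ⟨y, hy.mono ?_⟩
    intro f hf
    exact ⟨fun _ => Set.mem_univ _, hf⟩

theorem mem_two (A : Set S) (a b x : S) (ha : a ∈ A) (hb : b ∈ A) (h : a * b = x) :
    x ∈ power A 2 := by
  rw [power_succ]
  rw [← h]
  exact Set.mul_mem_mul ha hb

theorem two_mem_of_prop2 (h : Property2 S) (A : ℕ → Set S) (hA : AsympStrictDecr A) (x : S)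
    (hx : ∀ q, ∃ a ∈ A q, ∃ b ∈ A q, a * b = x) : ∃ a ∈ ⋂ q, A q, ∃ b ∈ ⋂ q, A q, a * b = x := by
  have h1 : Hset A ∈ HStar S := ⟨A, hA, rfl⟩
  rw [h, Set.mem_singleton_iff] at h1
  have h2 : 2 ∈ Hset A := by rw [h1]; exact (by norm_num : (1 : ℕ) ≤ 2)
  have h3 : x ∈ power (⋂ q, A q) 2 := by
    rw [h2.2]
    refine Set.mem_iInter.mpr fun q => ?_
    obtain ⟨a, ha, b, hb, e⟩ := hx q
    exact mem_two _ a b x ha hb e
  rw [power_succ] at h3
  obtain ⟨a, ha, b, hb, e⟩ := Set.mem_mul.mp h3
  exact ⟨a, ha, b, hb, e⟩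

/-- the sequence `{c} ∪ {b n : n ≥ q}` -/
theorem seq_const (c : S) (b : ℕ → S) (hb : Function.Injective b) (hc : ∀ n, b n ≠ c) :
    AsympStrictDecr (fun q => insert c (b '' {n | q ≤ n})) ∧
      (⋂ q, insert c (b '' {n | q ≤ n})) = {c} := by
  refine ⟨⟨?_, ?_⟩, ?_⟩
  · intro q
    refine Set.insert_subset_insert (Set.image_mono ?_)
    intro n hn
    exact (Nat.le_succ q).trans hn
  · refine Set.infinite_univ.mono ?_
    intro q _ he
    have h1 : b q ∈ insert c (b '' {n | q ≤ n}) := Or.inr ⟨q, le_refl q, rfl⟩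
    have he' : insert c (b '' {n | q + 1 ≤ n}) = insert c (b '' {n | q ≤ n}) := he
    rw [← he'] at h1
    rcases h1 with h1 | ⟨n, hn, h1⟩
    · exact hc q h1
    · have := hb h1
      have hn' : q + 1 ≤ n := hn
      omega
  · ext z
    constructor
    · intro hz
      have hz' := Set.mem_iInter.mp hz
      rcases hz' 0 with h | ⟨n, -, hn⟩
      · exact h
      · rcases hz' (n + 1) with h | ⟨m, hm, hm'⟩
        · exact h
        · have := hb (hm'.trans hn.symm)
          have hm2 : n + 1 ≤ m := hm
          omega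
    · intro hz
      rw [Set.mem_singleton_iff] at hz
      exact Set.mem_iInter.mpr fun q => Or.inl hz

theorem P2_of_prop2 (h : Property2 S) : P2 S := by
  intro c x
  constructor
  · intro hinf
    have hinf' : ({b : S | c * b = x} \ {c}).Infinite := hinf.sdiff (Set.finite_singleton c)
    obtain ⟨b, hb, hbm⟩ := exists_inj hinf'
    have hc : ∀ n, b n ≠ c := fun n => (hbm n).2
    obtain ⟨h1, h2⟩ := seq_const c b hb hc
    obtain ⟨a, ha, b', hb', e⟩ := two_mem_of_prop2 h _ h1 x (fun q =>
      ⟨c, Or.inl rfl, b q, Or.inr ⟨q, le_refl q, rfl⟩, (hbm q).1⟩)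
    rw [h2, Set.mem_singleton_iff] at ha hb'
    rw [ha, hb'] at e
    exact e
  · intro hinf
    have hinf' : ({b : S | b * c = x} \ {c}).Infinite := hinf.sdiff (Set.finite_singleton c)
    obtain ⟨b, hb, hbm⟩ := exists_inj hinf'
    have hc : ∀ n, b n ≠ c := fun n => (hbm n).2
    obtain ⟨h1, h2⟩ := seq_const c b hb hc
    obtain ⟨a, ha, b', hb', e⟩ := two_mem_of_prop2 h _ h1 x (fun q =>
      ⟨b q, Or.inr ⟨q, le_refl q, rfl⟩, c, Or.inl rfl, (hbm q).1⟩)
    rw [h2, Set.mem_singleton_iff] at ha hb'
    rw [ha, hb'] at e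
    exact e

theorem P1_of_prop2 (h : Property2 S) : P1 S := by
  intro x a b ha hb hab
  set A : ℕ → Set S := fun q => (a '' {n | q ≤ n}) ∪ (b '' {n | q ≤ n}) with hAdef
  have hmono : ∀ q, A (q + 1) ⊆ A q := by
    intro q
    refine Set.union_subset_union (Set.image_mono ?_) (Set.image_mono ?_)
    · intro n hn
      exact (Nat.le_succ q).trans hn
    · intro n hn
      exact (Nat.le_succ q).trans hn
  have hinter : (⋂ q, A q) = ∅ := by
    rw [Set.eq_empty_iff_forall_notMem]
    intro z hz
    have hz' := Set.mem_iInter.mp hz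
    have e1 : {n | a n = z}.Finite := by
      refine Set.Subsingleton.finite ?_
      intro m hm n hn
      exact ha (hm.trans hn.symm)
    have e2 : {n | b n = z}.Finite := by
      refine Set.Subsingleton.finite ?_
      intro m hm n hn
      exact hb (hm.trans hn.symm)
    obtain ⟨N, hN⟩ := (e1.union e2).bddAbove
    rcases hz' (N + 1) with ⟨n, hn, hn'⟩ | ⟨n, hn, hn'⟩
    · have h1 : n ≤ N := hN (Or.inl hn')
      have h2 : N + 1 ≤ n := hn
      omega
    · have h1 : n ≤ N := hN (Or.inr hn')
      have h2 : N + 1 ≤ n := hn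
      omega
  have hA : AsympStrictDecr A := by
    refine ⟨hmono, ?_⟩
    by_contra hcon
    rw [Set.not_infinite] at hcon
    obtain ⟨N, hN⟩ := hcon.bddAbove
    have hst : ∀ q, A (N + 1) ⊆ A (N + 1 + q) := by
      intro q
      induction q with
      | zero => exact Set.Subset.refl _
      | succ q ih =>
        have h1 : A (N + 1 + q + 1) = A (N + 1 + q) := by
          by_contra hne
          have := hN hne
          omega
        show A (N + 1) ⊆ A (N + 1 + q + 1)
        rw [h1]
        exact ih
    have h2 : a (N + 1) ∈ ⋂ q, A q := by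
      refine Set.mem_iInter.mpr fun q => ?_
      have h3 : a (N + 1) ∈ A (N + 1 + q) := hst q (Or.inl ⟨N + 1, le_refl (N + 1), rfl⟩)
      have h4 : ∀ k, A (q + k) ⊆ A q := by
        intro k
        induction k with
        | zero => exact Set.Subset.refl _
        | succ k ih => exact (hmono (q + k)).trans ih
      have h5 : N + 1 + q = q + (N + 1) := by omega
      rw [h5] at h3
      exact h4 _ h3
    rw [hinter] at h2
    exact h2
  obtain ⟨a', ha', -⟩ := two_mem_of_prop2 h A hA x (fun q =>
    ⟨a q, Or.inl ⟨q, le_refl q, rfl⟩, b q, Or.inr ⟨q, le_refl q, rfl⟩, hab q⟩)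
  rw [hinter] at ha'
  exact ha'

theorem prop2_of [Infinite S] (h1 : P1 S) (h2 : P2 S) : Property2 S := by
  have key : ∀ A : ℕ → Set S, AsympStrictDecr A → Hset A = {h : ℕ | 1 ≤ h} := by
    intro A hA
    ext h
    constructor
    · intro hh
      exact hh.1
    · intro hh
      refine ⟨hh, ?_⟩
      have hh' : 1 ≤ h := hh
      obtain ⟨n, rfl⟩ : ∃ n, h = n + 1 := ⟨h - 1, by omega⟩
      simp only [power_succ]
      apply Set.Subset.antisymm
      · exact Set.subset_iInter fun q => PP_mono (Set.iInter_subset _ q) n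
      · intro x hx
        exact inter h1 h2 A hA.1 n x (fun q => Set.mem_iInter.mp hx q)
  ext H
  constructor
  · rintro ⟨A, hA, rfl⟩
    exact key A hA
  · intro hH
    rw [Set.mem_singleton_iff] at hH
    obtain ⟨f, hf, -⟩ := exists_inj (Set.infinite_univ (α := S))
    have hc : ∀ n, f (n + 1) ≠ f 0 := fun n e => by
      have := hf e
      omega
    obtain ⟨h3, -⟩ := seq_const (f 0) (fun n => f (n + 1)) (fun m n e => by
      have := hf e
      omega) hc
    exact ⟨_, h3, by rw [hH, key _ h3]⟩

/-- **Full answer.** Characterisation of the semigroups with both properties, and the structure of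
the set of elements with infinitely many two-factor factorisations. -/
theorem result (S : Type*) [Semigroup S] :
    ((Property1 S ∧ Property2 S) ↔
      ((∃ x : S, (Pairs x).Infinite) ∧
        ∀ x : S, ∃ C : Set S, C.Finite ∧ (∀ c ∈ C, c * c = x) ∧
          {p ∈ Pairs x | p.1 ∉ C ∧ p.2 ∉ C}.Finite)) ∧
    ((Property1 S ∧ Property2 S) →
      (∃ x : S, (Pairs x).Infinite) ∧
      ∀ x : S, (Pairs x).Infinite →
        x * x = x ∧ ({b : S | x * b = x}.Infinite ∨ {b : S | b * x = x}.Infinite) ∧
        ∀ s : S, (Pairs (s * x)).Infinite ∧ (Pairs (x * s)).Infinite) := by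
  refine ⟨⟨?_, ?_⟩, ?_⟩
  · rintro ⟨hp1, hp2⟩
    exact ⟨property1_iff.mp hp1, Loc_of (P1_of_prop2 hp2) (P2_of_prop2 hp2)⟩
  · rintro ⟨hq, hloc⟩
    refine ⟨property1_iff.mpr hq, ?_⟩
    have hinf : Infinite S := by
      by_contra hcon
      rw [not_infinite_iff_finite] at hcon
      obtain ⟨x, hx⟩ := hq
      exact hx (Set.toFinite _)
    exact prop2_of (P1_of_Loc hloc) (P2_of_Loc hloc)
  · rintro ⟨hp1, hp2⟩
    have h1 := P1_of_prop2 hp2
    have h2 := P2_of_prop2 hp2
    refine ⟨property1_iff.mp hp1, ?_⟩
    intro x hx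
    obtain ⟨h3, h4⟩ := idem_absorb h1 h2 x hx
    exact ⟨h3, h4, fun s => ⟨ideal_left h1 h2 x s hx, ideal_right h1 h2 x s hx⟩⟩

end Pool.Agent.Results.MP_3b8abe_co.TwoFactor
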